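import Pool.Agent.helper12.LE.SpecB

/-!
Row KEX of `helper12/LE/SpecB`: the existence of the regular coset.
-/

set_option autoImplicit false

namespace Pool.Agent.LE

open Pool.Agent.helper58.DC Pool.Agent.DI Pool.Agent.GR Pool.Agent.OB Pool.Agent.DR Pool.Agent.FI Pool.Agent.FI3 Pool.Agent.FI4 Pool.Agent.FI4C Pool.Agent.FI4B

/-- the centraliser is normalised by the normaliser -/
theorem KEX_cz {G : Type} [Group G] {D : Subgroup G} {t c : G} (ht : t ∈ nz D) (hc : c ∈ cz D) : t * c * t⁻¹ ∈ cz D := by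
  rw [Subgroup.mem_centralizer_iff] at hc ⊢
  intro d hd
  have h1 : t⁻¹ * d * t ∈ D := by
    have h2 := (Subgroup.mem_normalizer_iff.1 ((nz D).inv_mem ht) d).1 hd
    rwa [inv_inv] at h2
  have h3 := hc _ h1
  calc d * (t * c * t⁻¹) = t * ((t⁻¹ * d * t) * c) * t⁻¹ := by group
    _ = t * (c * (t⁻¹ * d * t)) * t⁻¹ := by rw [h3]
    _ = t * c * t⁻¹ * d := by group

theorem KEX_core (hKIX : KIX_stmt) {G : Type} [Group G] [Finite G] {p : ℕ} (hp : p.Prime) (D K T : Subgroup G) (hT : T ≤ nz D) (hD : IsPGroup p D)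
    (com : ∀ c ∈ D, ∀ d ∈ D, c * d = d * c) (hpi : ¬ p ∣ (cz D).relIndex T) (j g : ℕ) (hj : 1 ≤ j)
    (hK : ∀ k, k ∈ K ↔ ∃ v ∈ D, v ^ p ^ j = k)
    (hw : ∀ t ∈ T, t ∉ cz D → ∃ w ∈ D, (w⁻¹ * t * w * t⁻¹) ^ p ^ (j - 1) ≠ 1)
    (hb : (g = 0 ∧ (cz D).relIndex T ≤ p ^ j) ∨ ∃ q : ℕ, q * {u : G | u ∈ D ∧ u ^ p ^ g ∈ K}.ncard ≤ Nat.card D ∧
      ((cz D).relIndex T - 1) * q + p ^ j < p ^ j * q) :
    ∃ u ∈ D, (∀ k ∈ K, ∀ t ∈ T, t * (u * k) = (u * k) * t → t ∈ cz D) ∧ (g = 0 ∨ u ^ p ^ g ∉ K) := by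
  classical
  have hpf : Fact p.Prime := ⟨hp⟩
  let Q := T ⧸ (cz D).subgroupOf T
  have : Fintype Q := Fintype.ofFinite Q
  set e := (cz D).relIndex T with he
  have hQ : Fintype.card Q = e := by
    rw [he, Subgroup.relIndex, Subgroup.index, Nat.card_eq_fintype_card]
  have he1 : 1 ≤ e := by
    rw [← hQ]
    exact Fintype.card_pos
  have hnorm : ((cz D).subgroupOf T).Normal := by
    constructor
    intro c hc t
    rw [Subgroup.mem_subgroupOf] at hc ⊢
    exact KEX_cz (hT t.2) hc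
  have hte : ∀ t ∈ T, t ^ e ∈ cz D := by
    intro t ht
    have h1 := Subgroup.pow_index_mem ((cz D).subgroupOf T) (⟨t, ht⟩ : T)
    exact h1
  have hKinv : ∀ t ∈ T, ∀ k ∈ K, t * k * t⁻¹ ∈ K := by
    intro t ht k hk
    obtain ⟨v, hv, rfl⟩ := (hK k).1 hk
    refine (hK _).2 ⟨t * v * t⁻¹, (Subgroup.mem_normalizer_iff.1 (hT ht) v).1 hv, ?_⟩
    exact conj_pow
  have hKD : K ≤ D := by
    intro k hk
    obtain ⟨v, hv, rfl⟩ := (hK k).1 hk
    exact D.pow_mem hv _
  let F : Q → Set G := fun q => {u : G | u ∈ D ∧ u⁻¹ * ((Quotient.out q : T) : G) * u * ((Quotient.out q : T) : G)⁻¹ ∈ K}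
  have hF : ∀ q : Q, q ≠ ((1 : T) : Q) → p ^ j * (F q).ncard ≤ Nat.card D := by
    intro q hq
    have h3 : ((Quotient.out q : T) : G) ∉ cz D := by
      intro h3
      apply hq
      have h6 : ((Quotient.out q : T) : Q) = q := Quotient.out_eq q
      rw [← h6, QuotientGroup.eq]
      show ((Quotient.out q : T)⁻¹ * 1) ∈ (cz D).subgroupOf T
      rw [mul_one]
      exact Subgroup.inv_mem _ (Subgroup.mem_subgroupOf.mpr h3)
    exact hKIX p hp G D K hD com j hj hK _ (hT (Quotient.out q : T).2) e hpi (hte _ (Quotient.out q : T).2) (hw _ (Quotient.out q : T).2 h3)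
  set B : Set G := if g = 0 then ∅ else {u : G | u ∈ D ∧ u ^ p ^ g ∈ K} with hB
  -- a good element
  have hex : ∃ u ∈ D, u ∉ B ∧ ∀ q : Q, q ≠ ((1 : T) : Q) → u ∉ F q := by
    by_contra hcon
    push Not at hcon
    have hcov : (D : Set G) ⊆ B ∪ ⋃ q ∈ (Finset.univ.erase ((1 : T) : Q)), F q := by
      intro u hu
      by_cases hBu : u ∈ B
      · exact Or.inl hBu
      · obtain ⟨q, hq, hqF⟩ := hcon u hu hBu
        right
        rw [Set.mem_iUnion₂]
        exact ⟨q, Finset.mem_erase.mpr ⟨hq, Finset.mem_univ _⟩, hqF⟩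
    have h1 : Nat.card D ≤ B.ncard + ∑ q ∈ Finset.univ.erase ((1 : T) : Q), (F q).ncard := by
      calc Nat.card D = (D : Set G).ncard := rfl
        _ ≤ (B ∪ ⋃ q ∈ (Finset.univ.erase ((1 : T) : Q)), F q).ncard := Set.ncard_le_ncard hcov (Set.toFinite _)
        _ ≤ B.ncard + (⋃ q ∈ (Finset.univ.erase ((1 : T) : Q)), F q).ncard := Set.ncard_union_le _ _
        _ ≤ _ := Nat.add_le_add_left (Finset.set_ncard_biUnion_le _ _) _
    have h2 : p ^ j * ∑ q ∈ Finset.univ.erase ((1 : T) : Q), (F q).ncard ≤ (e - 1) * Nat.card D := by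
      rw [Finset.mul_sum]
      calc ∑ q ∈ Finset.univ.erase ((1 : T) : Q), p ^ j * (F q).ncard ≤ ∑ q ∈ Finset.univ.erase ((1 : T) : Q), Nat.card D :=
            Finset.sum_le_sum fun q hq => hF q (Finset.ne_of_mem_erase hq)
        _ = (e - 1) * Nat.card D := by
            rw [Finset.sum_const, Finset.card_erase_of_mem (Finset.mem_univ _), Finset.card_univ, hQ, smul_eq_mul]
    have hD0 : 0 < Nat.card D := Nat.card_pos
    have h3 : p ^ j * Nat.card D ≤ p ^ j * B.ncard + (e - 1) * Nat.card D := by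
      calc p ^ j * Nat.card D ≤ p ^ j * (B.ncard + ∑ q ∈ Finset.univ.erase ((1 : T) : Q), (F q).ncard) := Nat.mul_le_mul_left _ h1
        _ = p ^ j * B.ncard + p ^ j * ∑ q ∈ Finset.univ.erase ((1 : T) : Q), (F q).ncard := mul_add _ _ _
        _ ≤ _ := Nat.add_le_add_left h2 _
    rcases hb with ⟨hg, hb⟩ | ⟨q, hq1, hq2⟩
    · rw [hB, if_pos hg, Set.ncard_empty, mul_zero, zero_add] at h3
      have h4 : p ^ j ≤ e - 1 := Nat.le_of_mul_le_mul_right h3 hD0
      omega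
    · have h4 : q * B.ncard ≤ Nat.card D := by
        rw [hB]
        split_ifs
        · rw [Set.ncard_empty, mul_zero]
          exact Nat.zero_le _
        · exact hq1
      have h5 : q * (p ^ j * Nat.card D) ≤ (p ^ j + (e - 1) * q) * Nat.card D := by
        calc q * (p ^ j * Nat.card D) ≤ q * (p ^ j * B.ncard + (e - 1) * Nat.card D) := Nat.mul_le_mul_left _ h3
          _ = p ^ j * (q * B.ncard) + (e - 1) * q * Nat.card D := by ring
          _ ≤ p ^ j * Nat.card D + (e - 1) * q * Nat.card D := Nat.add_le_add_right (Nat.mul_le_mul_left _ h4) _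
          _ = _ := by ring
      have h6 : (p ^ j + (e - 1) * q) * Nat.card D < (p ^ j * q) * Nat.card D :=
        Nat.mul_lt_mul_of_pos_right (by omega) hD0
      have h7 : q * (p ^ j * Nat.card D) = (p ^ j * q) * Nat.card D := by ring
      omega
  obtain ⟨u, hu, huB, huF⟩ := hex
  refine ⟨u, hu, ?_, ?_⟩
  · intro k hk t ht htu
    by_contra htc
    have h2 : (((⟨t, ht⟩ : T) : Q)) ≠ ((1 : T) : Q) := by
      intro h0
      rw [QuotientGroup.eq] at h0
      have h3 : (⟨t, ht⟩ : T)⁻¹ ∈ (cz D).subgroupOf T := by simpa using h0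
      have h4 := Subgroup.mem_subgroupOf.mp (Subgroup.inv_mem _ h3)
      exact htc (by simpa using h4)
    apply huF _ h2
    refine ⟨hu, ?_⟩
    set o : T := Quotient.out (((⟨t, ht⟩ : T) : Q)) with ho
    have h5 : ((o : T) : Q) = ((⟨t, ht⟩ : T) : Q) := Quotient.out_eq _
    rw [QuotientGroup.eq] at h5
    have h6 : (o : G)⁻¹ * t ∈ cz D := h5
    have hukD : u * k ∈ D := D.mul_mem hu (hKD hk)
    have h7 : (u * k) * ((o : G)⁻¹ * t) = ((o : G)⁻¹ * t) * (u * k) := (Subgroup.mem_centralizer_iff.mp h6) _ hukD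
    have h8 : (o : G) * (u * k) = (u * k) * (o : G) := by
      have h9 : (o : G) * (u * k) * ((o : G)⁻¹ * t) = (u * k) * (o : G) * ((o : G)⁻¹ * t) := by
        rw [mul_assoc, h7]
        simp only [mul_assoc, mul_inv_cancel_left]
        simp only [mul_assoc] at htu
        exact htu
      exact mul_right_cancel h9
    have h10 : u⁻¹ * (o : G) * u * (o : G)⁻¹ = k * ((o : G) * k⁻¹ * (o : G)⁻¹) := by
      have h11 : (o : G) * u = (u * k) * (o : G) * k⁻¹ := by
        rw [← h8]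
        group
      calc u⁻¹ * (o : G) * u * (o : G)⁻¹ = u⁻¹ * ((o : G) * u) * (o : G)⁻¹ := by group
        _ = u⁻¹ * ((u * k) * (o : G) * k⁻¹) * (o : G)⁻¹ := by rw [h11]
        _ = _ := by group
    rw [h10]
    exact K.mul_mem hk (hKinv _ o.2 _ (K.inv_mem hk))
  · by_cases hg : g = 0
    · exact Or.inl hg
    · right
      intro h
      apply huB
      rw [hB, if_neg hg]
      exact ⟨hu, h⟩

theorem KEX (hKIX : KIX_stmt) : KEX_stmt := by
  intro p M hp G _ _ D K θ hθ hD com hpi j h g hhj hK hw hb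
  have hTN : TT M D θ ≤ nz D := fun t ht => ht.1
  obtain ⟨u, hu, hreg, hord⟩ := KEX_core hKIX hp D K (TT M D θ) hTN hD com hpi j g (by omega) hK hw hb
  have hKD : K ≤ D := by
    intro k hk
    obtain ⟨v, hv, rfl⟩ := (hK k).1 hk
    exact D.pow_mem hv _
  refine ⟨u, ?_⟩
  constructor
  · exact hKD
  · intro k hk
    obtain ⟨v, hv, rfl⟩ := (hK k).1 hk
    refine ⟨v ^ p ^ (j - h - 1), D.pow_mem hv _, ?_⟩
    rw [← pow_mul, ← pow_add]
    congr 2
    omega
  · intro t ht k hk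
    obtain ⟨v, hv, rfl⟩ := (hK k).1 hk
    refine (hK _).2 ⟨t * v * t⁻¹, (Subgroup.mem_normalizer_iff.1 (hTN ht) v).1 hv, ?_⟩
    exact conj_pow
  · exact hu
  · intro k hk
    exact ⟨D.mul_mem hu (hKD hk), fun t ht htu => hreg k hk t ht htu⟩
  · exact hord

end Pool.Agent.LE
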