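import Pool.Agent.helper12.LE.SpecB

/-!
Row KPW of `helper12/LE/SpecB`: the subgroup of the `q`-th powers of an abelian subgroup.
-/

set_option autoImplicit false

namespace Pool.Agent.LE

open Pool.Agent.helper58.DC Pool.Agent.DI Pool.Agent.GR Pool.Agent.OB Pool.Agent.DR Pool.Agent.FI Pool.Agent.FI3 Pool.Agent.FI4 Pool.Agent.FI4C Pool.Agent.FI4B

/-- the power map of an abelian subgroup -/
def KPW_hom {G : Type} [Group G] (D : Subgroup G) (com : ∀ c ∈ D, ∀ d ∈ D, c * d = d * c) (q : ℕ) : D →* G where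
  toFun v := (v : G) ^ q
  map_one' := one_pow q
  map_mul' := fun v w => by
    show ((v : G) * (w : G)) ^ q = (v : G) ^ q * (w : G) ^ q
    exact (show Commute (v : G) (w : G) from com _ v.2 _ w.2).mul_pow q

/-- the number of the solutions of `v ^ q = 1` -/
theorem KPW_card {G : Type} [Group G] [Finite G] (D : Subgroup G) (com : ∀ c ∈ D, ∀ d ∈ D, c * d = d * c) (q : ℕ) :
    Nat.card (KPW_hom D com q).range * {v : G | v ∈ D ∧ v ^ q = 1}.ncard = Nat.card D := by
  set f := KPW_hom D com q with hf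
  have h1 : f.ker.map D.subtype = (f.ker.map D.subtype) := rfl
  have h2 : {v : G | v ∈ D ∧ v ^ q = 1} = ((f.ker.map D.subtype : Subgroup G) : Set G) := by
    ext v
    constructor
    · rintro ⟨hv, hq⟩
      exact ⟨⟨v, hv⟩, hq, rfl⟩
    · rintro ⟨v', hv', rfl⟩
      exact ⟨v'.2, hv'⟩
  have h3 : ((f.ker.map D.subtype : Subgroup G) : Set G).ncard = Nat.card f.ker := by
    show Nat.card (f.ker.map D.subtype : Subgroup G) = Nat.card f.ker
    exact (Nat.card_congr (f.ker.equivMapOfInjective D.subtype D.subtype_injective).toEquiv).symm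
  rw [h2, h3, mul_comm, ← Subgroup.index_ker f]
  exact Subgroup.card_mul_index f.ker

theorem KPW : KPW_stmt := by
  intro G _ _ D com q
  refine ⟨(KPW_hom D com q).range, ?_, ?_, ?_, KPW_card D com q⟩
  · rintro _ ⟨v, rfl⟩
    exact D.pow_mem v.2 q
  · intro k
    constructor
    · rintro ⟨v, rfl⟩
      exact ⟨v, v.2, rfl⟩
    · rintro ⟨v, hv, rfl⟩
      exact ⟨⟨v, hv⟩, rfl⟩
  · rintro t ht _ ⟨v, rfl⟩
    have h1 : t * (v : G) * t⁻¹ ∈ D := (Subgroup.mem_normalizer_iff.1 ht v).1 v.2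
    refine ⟨⟨_, h1⟩, ?_⟩
    show (t * (v : G) * t⁻¹) ^ q = t * (v : G) ^ q * t⁻¹
    exact conj_pow

end Pool.Agent.LE
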