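import Pool.Agent.helper12.LE.SpecB
import Pool.Agent.helper94.LE.KPW

/-!
Row KIX of `helper12/LE/SpecB`: the index bound for the commutators with `t` in `D ^ (p ^ j)`.
-/

set_option autoImplicit false

namespace Pool.Agent.LE

open Pool.Agent.helper58.DC Pool.Agent.DI Pool.Agent.GR Pool.Agent.OB Pool.Agent.DR Pool.Agent.FI Pool.Agent.FI3 Pool.Agent.FI4 Pool.Agent.FI4C Pool.Agent.FI4B

/-- the commutator identity -/
theorem KIX_ab {A : Type} [CommGroup A] (τ : A →* A) (e : ℕ) (hτ : ∀ a, τ^[e] a = a) (q : ℕ) (z w : A)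
    (h : w⁻¹ * τ w = z ^ q) : ∃ x : A, (x⁻¹ * τ x) ^ q = (w⁻¹ * τ w) ^ e := by
  classical
  have itm : ∀ (i : ℕ) (a b : A), τ^[i] (a * b) = τ^[i] a * τ^[i] b := fun i a b => iterate_map_mul τ i a b
  have iti : ∀ (i : ℕ) (a : A), τ^[i] (a⁻¹) = (τ^[i] a)⁻¹ := fun i a => iterate_map_inv τ i a
  have itp : ∀ (i : ℕ) (a : A) (n : ℕ), τ^[i] (a ^ n) = (τ^[i] a) ^ n := fun i a n => iterate_map_pow τ i a n
  set N : A → A := fun y => ∏ i ∈ Finset.range e, τ^[i] y with hN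
  have hN1 : N (w⁻¹ * τ w) = 1 := by
    show ∏ i ∈ Finset.range e, τ^[i] (w⁻¹ * τ w) = 1
    have h1 : ∀ i ∈ Finset.range e, τ^[i] (w⁻¹ * τ w) = τ^[i + 1] w / τ^[i] w := by
      intro i _
      rw [itm, iti, div_eq_mul_inv, mul_comm, Function.iterate_succ_apply]
    rw [Finset.prod_congr rfl h1, Finset.prod_range_div (fun i => τ^[i] w) e, hτ]
    exact div_self' w
  have hNz : (N z) ^ q = 1 := by
    rw [← hN1, h]
    show (∏ i ∈ Finset.range e, τ^[i] z) ^ q = ∏ i ∈ Finset.range e, τ^[i] (z ^ q)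
    rw [← Finset.prod_pow]
    exact Finset.prod_congr rfl fun i _ => (itp i z q).symm
  set P : ℕ → A := fun i => ∏ l ∈ Finset.range i, τ^[l] z with hP
  have hPi : ∀ i, P i * (τ (P i))⁻¹ = z * (τ^[i] z)⁻¹ := by
    intro i
    have h1 : τ (P i) = ∏ l ∈ Finset.range i, τ^[l + 1] z := by
      show τ (∏ l ∈ Finset.range i, τ^[l] z) = _
      rw [map_prod]
      exact Finset.prod_congr rfl fun l _ => (Function.iterate_succ_apply' τ l z).symm
    have h2 : τ (P i) * (P i)⁻¹ = τ^[i] z / z := by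
      rw [h1, ← div_eq_mul_inv]
      show (∏ l ∈ Finset.range i, τ^[l + 1] z) / (∏ l ∈ Finset.range i, τ^[l] z) = _
      rw [← Finset.prod_div_distrib, Finset.prod_range_div (fun i => τ^[i] z) i]
      rfl
    have h3 : (τ (P i) * (P i)⁻¹)⁻¹ = (τ^[i] z / z)⁻¹ := by rw [h2]
    rw [mul_inv, inv_inv, inv_div, div_eq_mul_inv] at h3
    rw [← h3, mul_comm]
  refine ⟨∏ i ∈ Finset.range e, (P i)⁻¹, ?_⟩
  have h5 : (∏ i ∈ Finset.range e, (P i)⁻¹)⁻¹ * τ (∏ i ∈ Finset.range e, (P i)⁻¹) = z ^ e * (N z)⁻¹ := by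
    rw [map_prod, ← Finset.prod_inv_distrib, ← Finset.prod_mul_distrib]
    have h6 : ∀ i ∈ Finset.range e, ((P i)⁻¹)⁻¹ * τ ((P i)⁻¹) = z * (τ^[i] z)⁻¹ := by
      intro i _
      rw [inv_inv, map_inv, hPi]
    rw [Finset.prod_congr rfl h6, Finset.prod_mul_distrib, Finset.prod_const, Finset.card_range, Finset.prod_inv_distrib]
  rw [h5, mul_pow, inv_pow, hNz, inv_one, mul_one, h, ← pow_mul, ← pow_mul, mul_comm]

/-- conjugation by an element of the normaliser -/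
def KIX_cj {G : Type} [Group G] (D : Subgroup G) (t : G) (ht : t ∈ nz D) : D →* D where
  toFun w := ⟨t * w * t⁻¹, (Subgroup.mem_normalizer_iff.1 ht w).1 w.2⟩
  map_one' := by
    apply Subtype.ext
    show t * ((1 : D) : G) * t⁻¹ = 1
    rw [Subgroup.coe_one, mul_one, mul_inv_cancel]
  map_mul' := fun v w => by
    apply Subtype.ext
    show t * ((v * w : D) : G) * t⁻¹ = t * v * t⁻¹ * (t * w * t⁻¹)
    rw [Subgroup.coe_mul]
    group

theorem KIX_it {G : Type} [Group G] (D : Subgroup G) (t : G) (ht : t ∈ nz D) (i : ℕ) (w : D) :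
    (((KIX_cj D t ht)^[i] w : D) : G) = t ^ i * w * (t ^ i)⁻¹ := by
  induction i with
  | zero => simp
  | succ n ih =>
    rw [Function.iterate_succ_apply']
    show t * (((KIX_cj D t ht)^[n] w : D) : G) * t⁻¹ = _
    rw [ih, pow_succ']
    group

/-- the commutator with `t` -/
def KIX_hom {G : Type} [Group G] (D : Subgroup G) (com : ∀ c ∈ D, ∀ d ∈ D, c * d = d * c) (t : G)
    (ht : t ∈ nz D) : D →* G where
  toFun w := (w : G)⁻¹ * t * w * t⁻¹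
  map_one' := by simp
  map_mul' := by
    intro w₁ w₂
    have hc : ∀ w : D, t * (w : G) * t⁻¹ ∈ D := fun w => (Subgroup.mem_normalizer_iff.1 ht w).1 w.2
    have h1 : (w₂ : G)⁻¹ * ((w₁ : G)⁻¹ * (t * w₁ * t⁻¹)) = ((w₁ : G)⁻¹ * (t * w₁ * t⁻¹)) * (w₂ : G)⁻¹ :=
      com _ (D.inv_mem w₂.2) _ (D.mul_mem (D.inv_mem w₁.2) (hc w₁))
    calc ((w₁ * w₂ : D) : G)⁻¹ * t * ((w₁ * w₂ : D) : G) * t⁻¹
        = ((w₂ : G)⁻¹ * ((w₁ : G)⁻¹ * (t * w₁ * t⁻¹))) * (t * w₂ * t⁻¹) := by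
          rw [Subgroup.coe_mul]; group
      _ = ((w₁ : G)⁻¹ * (t * w₁ * t⁻¹)) * (w₂ : G)⁻¹ * (t * w₂ * t⁻¹) := by rw [h1]
      _ = ((w₁ : G)⁻¹ * t * w₁ * t⁻¹) * ((w₂ : G)⁻¹ * t * w₂ * t⁻¹) := by group

theorem KIX_memD {G : Type} [Group G] {D : Subgroup G} {t : G} (ht : t ∈ nz D) {w : G} (hw : w ∈ D) : w⁻¹ * t * w * t⁻¹ ∈ D := by
  have h1 : t * w * t⁻¹ ∈ D := (Subgroup.mem_normalizer_iff.1 ht w).1 hw
  have h2 := D.mul_mem (D.inv_mem hw) h1
  have h3 : w⁻¹ * t * w * t⁻¹ = w⁻¹ * (t * w * t⁻¹) := by group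
  rw [h3]
  exact h2

/-- (1) of the docstring -/
theorem KIX_one {G : Type} [Group G] [Finite G] {p : ℕ} (hp : p.Prime) (D : Subgroup G) (hD : IsPGroup p D) (com : ∀ c ∈ D, ∀ d ∈ D, c * d = d * c)
    (q : ℕ) (t : G) (ht : t ∈ nz D) (e : ℕ) (he : ¬ p ∣ e) (hte : t ^ e ∈ cz D) (z w : G) (hz : z ∈ D) (hw : w ∈ D)
    (h : w⁻¹ * t * w * t⁻¹ = z ^ q) : ∃ x ∈ D, (x⁻¹ * t * x * t⁻¹) ^ q = w⁻¹ * t * w * t⁻¹ := by
  have : Fact p.Prime := ⟨hp⟩
  let _ : CommGroup D := { (inferInstance : Group D) with mul_comm := fun a b => Subtype.ext (com a a.2 b b.2) }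
  have hτ : ∀ a : D, (KIX_cj D t ht)^[e] a = a := by
    intro a
    apply Subtype.ext
    rw [KIX_it]
    have h1 : (a : G) * t ^ e = t ^ e * a := (Subgroup.mem_centralizer_iff.1 hte) a a.2
    rw [← h1, mul_inv_cancel_right]
  have hcj : ∀ a : D, ((a⁻¹ * KIX_cj D t ht a : D) : G) = (a : G)⁻¹ * t * a * t⁻¹ := by
    intro a
    show (a : G)⁻¹ * (t * a * t⁻¹) = _
    group
  obtain ⟨x, hx⟩ := KIX_ab (KIX_cj D t ht) e hτ q (⟨z, hz⟩ : D) ⟨w, hw⟩ (by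
    apply Subtype.ext
    rw [hcj]
    exact h)
  have hx' : ((x : G)⁻¹ * t * x * t⁻¹) ^ q = (w⁻¹ * t * w * t⁻¹) ^ e := by
    have := congrArg (fun a : D => (a : G)) hx
    simp only [Subgroup.coe_pow] at this
    rw [hcj, hcj] at this
    exact this
  set v := w⁻¹ * t * w * t⁻¹ with hv
  have hvD : v ∈ D := KIX_memD ht hw
  obtain ⟨k, hk⟩ := (IsPGroup.iff_orderOf.1 hD) ⟨v, hvD⟩
  rw [Subgroup.orderOf_mk] at hk
  have hco : Nat.Coprime e (orderOf v) := by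
    rw [hk]
    exact (Nat.Coprime.pow_left k ((Nat.Prime.coprime_iff_not_dvd hp).2 he)).symm
  obtain ⟨f, hf⟩ := exists_pow_eq_self_of_coprime hco
  refine ⟨((x ^ f : D) : G), (x ^ f : D).2, ?_⟩
  have h1 : (((x ^ f : D) : G)⁻¹ * t * ((x ^ f : D) : G) * t⁻¹) = ((x : G)⁻¹ * t * x * t⁻¹) ^ f := by
    have h2 : KIX_hom D com t ht (x ^ f) = (KIX_hom D com t ht x) ^ f := map_pow _ _ _
    exact h2
  rw [h1, ← pow_mul, mul_comm, pow_mul, hx', hf]

theorem KIX : KIX_stmt := by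
  intro p hp G _ _ D K hD com j hj hK t ht e he hte hw
  obtain ⟨w, hwD, hw1⟩ := hw
  have hpf : Fact p.Prime := ⟨hp⟩
  set φ := KIX_hom D com t ht with hφ
  set V := φ.range with hV
  have hVD : V ≤ D := by
    rintro _ ⟨u, rfl⟩
    exact KIX_memD ht u.2
  have comV : ∀ c ∈ V, ∀ d ∈ V, c * d = d * c := fun c hc d hd => com c (hVD hc) d (hVD hd)
  set ρ := KPW_hom V comV (p ^ j) with hρ
  set W := ρ.range with hW
  have hWV : W ≤ V := by
    rintro _ ⟨v, rfl⟩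
    exact V.pow_mem v.2 _
  -- the set is contained in the preimage of W
  have hset : {u : G | u ∈ D ∧ u⁻¹ * t * u * t⁻¹ ∈ K} ⊆ (((W.comap φ).map D.subtype : Subgroup G) : Set G) := by
    rintro u ⟨hu, huK⟩
    obtain ⟨z, hz, hz2⟩ := (hK _).1 huK
    obtain ⟨x, hx, hx2⟩ := KIX_one hp D hD com (p ^ j) t ht e he hte z u hz hu hz2.symm
    refine ⟨⟨u, hu⟩, ?_, rfl⟩
    show φ ⟨u, hu⟩ ∈ W
    refine ⟨⟨x⁻¹ * t * x * t⁻¹, ⟨⟨x, hx⟩, rfl⟩⟩, ?_⟩
    exact hx2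
  have hcS : {u : G | u ∈ D ∧ u⁻¹ * t * u * t⁻¹ ∈ K}.ncard ≤ Nat.card (W.comap φ) := by
    refine (Set.ncard_le_ncard hset (Set.toFinite _)).trans ?_
    show Nat.card ((W.comap φ).map D.subtype : Subgroup G) ≤ _
    exact (Nat.card_congr ((W.comap φ).equivMapOfInjective D.subtype D.subtype_injective).toEquiv).symm.le
  have h1 : Nat.card (W.comap φ) * W.relIndex V = Nat.card D := by
    rw [← Subgroup.card_mul_index (W.comap φ), Subgroup.index_comap]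
  have h2 : W.relIndex V * Nat.card W = Nat.card V := by
    have h := Subgroup.relIndex_mul_relIndex ⊥ W V bot_le hWV
    rw [Subgroup.relIndex_bot_left, Subgroup.relIndex_bot_left] at h
    rw [← h, mul_comm]
  have h3 : Nat.card ρ.ker * Nat.card W = Nat.card V := by
    rw [← Subgroup.card_mul_index ρ.ker, Subgroup.index_ker]
  have h4 : W.relIndex V = Nat.card ρ.ker := Nat.eq_of_mul_eq_mul_right Nat.card_pos (h2.trans h3.symm)
  -- an element of order p ^ j in the kernel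
  have h5 : p ^ j ≤ Nat.card ρ.ker := by
    have hvD : w⁻¹ * t * w * t⁻¹ ∈ D := KIX_memD ht hwD
    set v := w⁻¹ * t * w * t⁻¹ with hv
    have hvV : v ∈ V := ⟨⟨w, hwD⟩, rfl⟩
    obtain ⟨a, ha⟩ := (IsPGroup.iff_orderOf.1 hD) ⟨v, hvD⟩
    rw [Subgroup.orderOf_mk] at ha
    have haj : j ≤ a := by
      by_contra hlt
      apply hw1
      rw [← orderOf_dvd_iff_pow_eq_one, ha]
      exact pow_dvd_pow p (by omega)
    have hy : orderOf (v ^ p ^ (a - j)) = p ^ j := by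
      rw [orderOf_pow' _ (pow_ne_zero _ hp.ne_zero), ha, Nat.gcd_eq_right (pow_dvd_pow p (Nat.sub_le a j))]
      rw [Nat.pow_div (Nat.sub_le a j) hp.pos]
      congr 1
      omega
    have hyk : (⟨v ^ p ^ (a - j), V.pow_mem hvV _⟩ : V) ∈ ρ.ker := by
      show (v ^ p ^ (a - j)) ^ p ^ j = 1
      rw [← hy]
      exact pow_orderOf_eq_one _
    have h6 := orderOf_dvd_natCard (⟨_, hyk⟩ : ρ.ker)
    rw [Subgroup.orderOf_mk, Subgroup.orderOf_mk, hy] at h6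
    exact Nat.le_of_dvd Nat.card_pos h6
  calc p ^ j * {u : G | u ∈ D ∧ u⁻¹ * t * u * t⁻¹ ∈ K}.ncard ≤ Nat.card ρ.ker * Nat.card (W.comap φ) := Nat.mul_le_mul h5 hcS
    _ = Nat.card D := by rw [← h4, mul_comm, h1]

end Pool.Agent.LE
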